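import Pool.Agent.TH115.TC.LocC

/-!
# The local condition for the Kummer generator, with one point for all embeddings
-/

set_option autoImplicit false
set_option linter.all false

open WeierstrassCurve WeierstrassCurve.Affine
open scoped Classical

namespace Pool.Agent.Y275.G

open Pool.Agent.TH115.GD
open Pool.Agent.W309.TD (locConst_apply exists_root compare)

universe u

section transfer

variable {K F Ω L Ω' E Ω'' : Type u} [Field K] [Field F] [Field Ω] [Field L] [Field Ω'] [Field E]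
  [Field Ω''] [Algebra K F] [Algebra F Ω] [Algebra K Ω] [IsScalarTower K F Ω] [IsGalois F Ω]
  [Algebra K L] [Algebra F L] [IsScalarTower K F L]
  [Algebra L Ω'] [Algebra K Ω'] [Algebra F Ω'] [IsScalarTower K L Ω'] [IsScalarTower F L Ω']
  [IsScalarTower K F Ω'] [IsGalois L Ω']
  [Algebra K E] [Algebra E Ω''] [Algebra K Ω''] [Algebra F Ω''] [Algebra F E]
  [IsScalarTower K E Ω''] [IsScalarTower K F Ω''] [IsScalarTower F E Ω'']
  (W : WeierstrassCurve K)

/-- A point of `W` over `L` which determines the class of the cocycle over `L`. -/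
def IsQ (L Ω' : Type u) [Field L] [Field Ω'] [Algebra K L] [Algebra L Ω'] [Algebra K Ω']
    [Algebra F Ω'] [IsScalarTower K L Ω'] [IsScalarTower K F Ω']
    (f : (Ω ≃ₐ[F] Ω) → Pt W Ω) (Q : Pt W L) : Prop :=
  ∃ (ι : Ω →ₐ[F] Ω') (P : Pt W Ω'), (∀ (τ : Ω' ≃ₐ[L] Ω') (σ : Ω ≃ₐ[F] Ω),
    (∀ x, τ (ι x) = ι (σ x)) →
      act W (ι.restrictScalars K) (f σ) = act W (rs K τ) P - P) ∧
    act W (incl K L Ω') Q = P + P

theorem exists_isQ {f : (Ω ≃ₐ[F] Ω) → Pt W Ω} (hf2 : ∀ σ, f σ + f σ = 0)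
    (hloc : LocTriv W L Ω' f) : ∃ Q : Pt W L, IsQ W L Ω' f Q := by
  obtain ⟨ι, P0, hP⟩ := hloc
  choose res hres using exists_restrict (F := F) (Ω := Ω) (L := L) (Ω' := Ω') ι
  set ι' : Ω →ₐ[K] Ω' := ι.restrictScalars K with hι'
  have hT : ∀ τ : Ω' ≃ₐ[L] Ω', act W ι' (f (res τ)) = act W (rs K τ) P0 - P0 :=
    fun τ => hP τ (res τ) (hres τ)
  have hPP : ∀ τ : Ω' ≃ₐ[L] Ω', act W (rs K τ) (P0 + P0) = P0 + P0 := by
    intro τ
    have h1 : act W (rs K τ) P0 = P0 + act W ι' (f (res τ)) := by rw [hT]; abel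
    rw [map_add, h1, add_add_add_comm, (two_act W ι' _).2 (hf2 _), add_zero]
  obtain ⟨Q, hQ⟩ := fixed_point (K := K) (F := L) W (P0 + P0) hPP
  exact ⟨Q, ι, P0, hP, hQ⟩

theorem transferQ {f : (Ω ≃ₐ[F] Ω) → Pt W Ω} (hf : IsCoc W f) (hf2 : ∀ σ, f σ + f σ = 0)
    {Q : Pt W L} (hloc : IsQ W L Ω' f Q) (κ : Ω' →ₐ[F] Ω'')
    (hκ : ∀ τ : Ω'' ≃ₐ[E] Ω'', ∃ τ' : Ω' ≃ₐ[L] Ω', ∀ x, τ (κ x) = κ (τ' x))
    (c : Ω →ₐ[F] Ω'') :
    ∃ (P : Pt W Ω''), P + P = act W ((κ.restrictScalars K).comp (incl K L Ω')) Q ∧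
      ∀ (τ : Ω'' ≃ₐ[E] Ω'') (σ : Ω ≃ₐ[F] Ω), (∀ x, τ (c x) = c (σ x)) →
        act W (c.restrictScalars K) (f σ) = act W (rs K τ) P - P := by
  obtain ⟨ι, P0, hP, hQ⟩ := hloc
  choose res hres using exists_restrict (F := F) (Ω := Ω) (L := L) (Ω' := Ω') ι
  set ι' : Ω →ₐ[K] Ω' := ι.restrictScalars K with hι'
  set κ' : Ω' →ₐ[K] Ω'' := κ.restrictScalars K with hκ'
  obtain ⟨ρ, hρ⟩ := exists_aut (κ.comp ι) c
  refine ⟨act W κ' P0 + act W (κ'.comp ι') (f ρ), ?_, fun τ σ h => ?_⟩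
  · rw [add_add_add_comm, (two_act W _ _).2 (hf2 ρ), add_zero, ← map_add, ← hQ, act_act]
  · obtain ⟨τ', hτ'⟩ := hκ τ
    -- `res τ' = ρ σ ρ⁻¹`
    have hconj : ∀ x, τ' (ι x) = ι ((ρ * σ * ρ⁻¹) x) := by
      intro x
      apply κ.injective
      show κ (τ' (ι x)) = κ (ι ((ρ * σ * ρ⁻¹) x))
      rw [← hτ']
      have e1 : κ (ι x) = c (ρ⁻¹ x) := by
        rw [hρ, ← AlgEquiv.mul_apply, mul_inv_cancel]; rfl
      rw [e1, h, hρ]
      rfl
    have h1 := hP τ' _ hconj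
    have h2 : f (ρ * σ * ρ⁻¹ * ρ) = f (ρ * σ * ρ⁻¹) + act W (rs K (ρ * σ * ρ⁻¹)) (f ρ) :=
      hf.mul _ _
    have h3 : ρ * σ * ρ⁻¹ * ρ = ρ * σ := by group
    rw [h3, hf.mul] at h2
    have h4 : act W (rs K ρ) (f σ) = f (ρ * σ * ρ⁻¹) + act W (rs K (ρ * σ * ρ⁻¹)) (f ρ) - f ρ := by
      rw [← h2]; abel
    have ec : act W (c.restrictScalars K) (f σ) = act W (κ'.comp ι') (act W (rs K ρ) (f σ)) := by
      have e6 : (κ'.comp ι').comp (rs K ρ) = c.restrictScalars K := AlgHom.ext fun x => (hρ x).symm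
      rw [act_act, e6]
    have e5 : act W (κ'.comp ι') (f (ρ * σ * ρ⁻¹)) = act W (rs K τ) (act W κ' P0) - act W κ' P0 := by
      have e6 : (κ').comp (rs K τ') = (rs K τ).comp κ' := AlgHom.ext fun x => (hτ' x).symm
      rw [← act_act, h1, map_sub, act_act, act_act, e6]
    have e7 : act W (κ'.comp ι') (act W (rs K (ρ * σ * ρ⁻¹)) (f ρ)) =
        act W (rs K τ) (act W (κ'.comp ι') (f ρ)) := by
      have e8 : (κ'.comp ι').comp (rs K (ρ * σ * ρ⁻¹)) = (rs K τ).comp (κ'.comp ι') := by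
        refine AlgHom.ext fun x => ?_
        show κ (ι ((ρ * σ * ρ⁻¹) x)) = τ (κ (ι x))
        rw [hτ', hconj]
      rw [act_act, act_act, e8]
    rw [ec, h4, map_sub, map_add, e5, e7, map_add]
    abel

end transfer

section locC

variable {K F Ω L Ω' E M : Type u} [Field K] [Field F] [Field Ω] [Field L] [Field Ω'] [Field E]
  [Field M] [Algebra K F] [Algebra F Ω] [Algebra K Ω] [IsScalarTower K F Ω]
  [IsGalois F Ω]
  [Algebra K L] [Algebra F L] [IsScalarTower K F L]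
  [Algebra L Ω'] [Algebra K Ω'] [Algebra F Ω'] [IsScalarTower K L Ω'] [IsScalarTower F L Ω']
  [IsScalarTower K F Ω'] [IsGalois L Ω']
  [Algebra K E] [Algebra F E] [IsScalarTower K F E]
  [Algebra F M] [Algebra M Ω] [IsScalarTower F M Ω] [Algebra M E] [IsScalarTower F M E]
  (W : WeierstrassCurve K)

theorem locCQ (Ω'' : Type u) [Field Ω''] [Algebra E Ω''] [Algebra K Ω''] [Algebra F Ω'']
    [IsScalarTower K E Ω''] [IsScalarTower K F Ω''] [IsScalarTower F E Ω''] [IsGalois E Ω'']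
    [IsSepClosed Ω''] {a b c : Ω} {θ : M} (hC : IsC (W.baseChange Ω).toAffine a b c)
    (hθ : algebraMap M Ω θ = a) (j : L →+* E)
    (hj : ∀ x : F, j (algebraMap F L x) = algebraMap F E x)
    {f : (Ω ≃ₐ[F] Ω) → Pt W Ω} (hf : IsCoc W f) (hf2 : ∀ σ, f σ + f σ = 0)
    {Q : Pt W L} (hloc : IsQ W L Ω' f Q) {t : Ω} {z : M} (ht : t ≠ 0)
    (hz : t ^ 2 = algebraMap M Ω z)
    (hk : ∀ σ : Ω ≃ₐ[F] Ω, σ a = a → σ t = sC a (f σ) * t) :
    (Q = 0 → ∃ s : E, algebraMap M E z = s ^ 2) ∧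
    ∀ x y h, Q = .some x y h → ∃ s D : E, algebraMap M E z = s ^ 2 * D ∧
      ((j x = algebraMap M E θ ∧ D = cub' W (algebraMap M E θ)) ∨
        (j x ≠ algebraMap M E θ ∧ D = j x - algebraMap M E θ)) := by
  obtain ⟨κ, hκ1, hκ2⟩ := exists_kappa (F := F) (L := L) (Ω' := Ω') (E := E) (Ω'' := Ω'') j hj
  -- the embedding
  obtain ⟨i, hi⟩ : ∃ i : Ω →ₐ[F] Ω'', ∀ m : M, i (algebraMap M Ω m) =
      algebraMap E Ω'' (algebraMap M E m) := by
    letI : Algebra M Ω'' := ((algebraMap E Ω'').comp (algebraMap M E)).toAlgebra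
    haveI : Algebra.IsSeparable M Ω := Algebra.isSeparable_tower_top_of_isSeparable F M Ω
    let i0 : Ω →ₐ[M] Ω'' := IsSepClosed.lift
    refine ⟨{ i0.toRingHom with commutes' := fun x => ?_ }, fun m => i0.commutes m⟩
    show i0 (algebraMap F Ω x) = _
    rw [IsScalarTower.algebraMap_apply F M Ω, i0.commutes]
    show algebraMap E Ω'' (algebraMap M E (algebraMap F M x)) = _
    rw [← IsScalarTower.algebraMap_apply F M E, ← IsScalarTower.algebraMap_apply F E Ω'']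
  obtain ⟨P, hPQ, hP⟩ := transferQ W hf hf2 hloc κ hκ2 i
  choose res hres using exists_restrict (F := F) (Ω := Ω) (L := E) (Ω' := Ω'') i
  set i' : Ω →ₐ[K] Ω'' := i.restrictScalars K with hi'
  have hC' := hC.map i'
  have hia : i a = algebraMap E Ω'' (algebraMap M E θ) := by rw [← hθ, hi]
  have hfix : ∀ τ : Ω'' ≃ₐ[E] Ω'', res τ a = a := by
    intro τ
    apply i.injective
    show i (res τ a) = i a
    rw [← hres, hia, τ.commutes]
  have hT : ∀ τ : Ω'' ≃ₐ[E] Ω'', act W i' (f (res τ)) = act W (rs K τ) P - P :=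
    fun τ => hP τ (res τ) (hres τ)
  have hTT : ∀ τ : Ω'' ≃ₐ[E] Ω'', (act W (rs K τ) P - P) + (act W (rs K τ) P - P) = 0 := by
    intro τ
    rw [← hT]
    exact (two_act W i' _).2 (hf2 _)
  have A : ∀ τ : Ω'' ≃ₐ[E] Ω'', τ (i t) = sC (i' a) (act W (rs K τ) P - P) * i t := by
    intro τ
    rw [hres, hk _ (hfix τ), map_mul, ← hT, sC_act]
    rfl
  have B : ∀ τ : Ω'' ≃ₐ[E] Ω'', τ (hc (i' a) (i' b) (i' c) P) =
      sC (i' a) (act W (rs K τ) P - P) * hc (i' a) (i' b) (i' c) P := by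
    intro τ
    have e1 : hc ((rs K τ) (i' a)) ((rs K τ) (i' b)) ((rs K τ) (i' c)) (act W (rs K τ) P) =
        (rs K τ) (hc (i' a) (i' b) (i' c) P) := hc_act W (rs K τ) _ _ _ P
    have ea : (rs K τ) (i' a) = i' a := by
      show τ (i a) = i a
      rw [hres, hfix]
    have e3 : hc ((rs K τ) (i' a)) ((rs K τ) (i' b)) ((rs K τ) (i' c)) (act W (rs K τ) P) =
        hc (i' a) (i' b) (i' c) (act W (rs K τ) P) := by
      rw [ea]
      rcases hC'.perm1 (rs K τ) ea with ⟨h1, h3⟩ | ⟨h1, h3⟩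
      · rw [h1, h3]
      · rw [h1, h3, hc_swap]
    rw [e3] at e1
    have e4 : act W (rs K τ) P = P + (act W (rs K τ) P - P) := by abel
    rw [e4, hc_translate hC' (hTT τ)] at e1
    · rw [e4] at e1
      simp only [add_sub_cancel_left] at e1
      exact e1.symm
    · intro hP0
      have h5 : act W (rs K τ) P - P = act W (rs K τ) P + P := by
        rw [sub_eq_add_neg, neg_eq_of_add_eq_zero_left hP0]
      have h6 : act W (rs K τ) P + act W (rs K τ) P = 0 := (two_act W _ _).2 hP0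
      rw [h5, sC_add hC' h6 hP0]
      have h7 : sC (i' a) (act W (rs K τ) P) = sC (i' a) P := by
        have := sC_act' W (rs K τ) (i' a) P
        rwa [ea] at this
      rw [h7, sC_mul_self]
  have hne := hc_ne hC' P
  obtain ⟨g, hg, q⟩ := compare (K := E) ((map_ne_zero i).2 ht) hne _ (fun τ => sC_ne _) A B
  have q2 : algebraMap E Ω'' (algebraMap M E z) = algebraMap E Ω'' g ^ 2 *
      dc (i' a) (i' b) (i' c) (P + P) := by
    rw [← hc_sq hC', ← mul_pow, ← q, ← map_pow, hz, hi]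
  have injE := (algebraMap E Ω'').injective
  have ecub' : cub' W (i' a) = algebraMap E Ω'' (cub' W (algebraMap M E θ)) := by
    have : (i' a) = (incl K E Ω'') (algebraMap M E θ) := hia
    rw [this, cub'_map]
    rfl
  rw [hPQ] at q2
  refine ⟨?_, ?_⟩
  · rintro rfl
    refine ⟨g, injE ?_⟩
    rw [q2, map_zero, map_pow]
    show _ * (1 : Ω'') = _
    rw [mul_one]
  · rintro x y hxy rfl
    obtain ⟨h', hh⟩ := act_some W ((κ.restrictScalars K).comp (incl K L Ω')) hxy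
    rw [hh] at q2
    have ex : ((κ.restrictScalars K).comp (incl K L Ω')) x = algebraMap E Ω'' (j x) := hκ1 x
    simp only [dc, ex] at q2
    by_cases hx : j x = algebraMap M E θ
    · have hx' : algebraMap E Ω'' (j x) = i' a := by rw [hx]; exact hia.symm
      rw [if_pos hx', ← hC'.cub'_eq, ecub'] at q2
      refine ⟨g, cub' W (algebraMap M E θ), injE ?_, Or.inl ⟨hx, rfl⟩⟩
      rw [q2, map_mul, map_pow]
    · have hx' : algebraMap E Ω'' (j x) ≠ i' a := fun h => hx (injE (by rw [h]; exact hia))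
      rw [if_neg hx'] at q2
      refine ⟨g, j x - algebraMap M E θ, injE ?_, Or.inr ⟨hx, rfl⟩⟩
      have hia' : i' a = algebraMap E Ω'' (algebraMap M E θ) := hia
      rw [q2, map_mul, map_pow, map_sub, hia']

end locC

end Pool.Agent.Y275.G
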