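import Pool.Agent.Y702.G.Stm
import Pool.Agent.Y809.BS.Kum2
import Pool.Agent.Y275.G.LocQ

/-!
# The Kummer generator over the cubic field, for a general curve
-/

set_option autoImplicit false
set_option linter.all false

open NumberField IsDedekindDomain WithZero WeierstrassCurve WeierstrassCurve.Affine Polynomial
open scoped Classical

namespace Pool.Agent.Y275.G

open Pool.Agent.TH115.GD
open Pool.Agent.Y702.G (LocU)
open Pool.Agent.Y809.BS (galL)

section hom

variable {A Ω : Type} [Field A] [Field Ω] [Algebra ℚ A] [Algebra ℚ Ω]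

theorem hom_eq {θ : A} (h : IntermediateField.adjoin ℚ {θ} = ⊤) {φ ψ : A →ₐ[ℚ] Ω}
    (e : φ θ = ψ θ) : φ = ψ := by
  refine AlgHom.ext fun y => ?_
  have hy : y ∈ (⊤ : IntermediateField ℚ A) := trivial
  rw [← h] at hy
  refine IntermediateField.adjoin_induction ℚ (p := fun y _ => φ y = ψ y) ?_ ?_ ?_ ?_ ?_ hy
  · intro y hy
    rw [Set.mem_singleton_iff] at hy
    subst hy
    exact e
  · intro y
    rw [AlgHom.commutes, AlgHom.commutes]
  · intro x y _ _ hx hy
    rw [map_add, map_add, hx, hy]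
  · intro x _ hx
    rw [map_inv₀, map_inv₀, hx]
  · intro x y _ _ hx hy
    rw [map_mul, map_mul, hx, hy]

end hom

section norm

variable {V : WeierstrassCurve ℚ} {A Ω : Type} [Field A] [NumberField A] [Field Ω] [Algebra ℚ Ω]
  [IsAlgClosed Ω] [IsGalois ℚ Ω] [Algebra A Ω] [IsScalarTower ℚ A Ω]

/-- The norm of the Kummer generator is a square. -/
theorem norm_sq {a b c : Ω} (hC : IsC (V.baseChange Ω).toAffine a b c)
    (hnr : ∀ x : ℚ, cub V x ≠ 0) {θ : A} (hθ : algebraMap A Ω θ = a)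
    (htop : IntermediateField.adjoin ℚ {θ} = ⊤)
    {g : (Ω ≃ₐ[ℚ] Ω) → Pt V Ω}
    (hmul : ∀ σ τ, g (σ * τ) = g σ + act V (ak σ) (g τ)) (hg2 : ∀ τ, g τ + g τ = 0)
    {t : Ω} {z : A} (hz : t ^ 2 = algebraMap A Ω z)
    (hk : ∀ τ : Ω ≃ₐ[ℚ] Ω, τ a = a → τ t = sC a (g τ) * t) :
    ∃ r : ℚ, Algebra.norm ℚ z = r ^ 2 := by
  have htr : ∀ e : Ω, (e = a ∨ e = b ∨ e = c) → ∃ ρ : Ω ≃ₐ[ℚ] Ω, ρ a = e :=
    fun e he => trans_roots (K := ℚ) (F := ℚ) hC hnr e he
  choose! ρ hρ using htr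
  have add : ∀ {e : Ω}, (e = a ∨ e = b ∨ e = c) → ∀ {S T : Pt V Ω}, S + S = 0 → T + T = 0 →
      sC e (S + T) = sC e S * sC e T := by
    intro e he S T hS hT
    obtain ⟨e', e'', hC'⟩ := hC.at_root he
    exact sC_add hC' hS hT
  have tw2 : ∀ (σ : Ω ≃ₐ[ℚ] Ω) {T : Pt V Ω}, T + T = 0 →
      act V (ak σ) T + act V (ak σ) T = 0 := fun σ T hT => (two_act V _ _).2 hT
  have sga : ∀ (σ : Ω ≃ₐ[ℚ] Ω) (e : Ω) (P : Pt V Ω), sC (σ e) (act V (ak σ) P) = sC e P :=
    fun σ e P => sC_act' V (ak σ) e P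
  have root : ∀ (σ : Ω ≃ₐ[ℚ] Ω) {e : Ω}, (e = a ∨ e = b ∨ e = c) →
      (σ e = a ∨ σ e = b ∨ σ e = c) := fun σ e he => hC.act_root (ak σ) he
  have sgn : ∀ (σ : Ω ≃ₐ[ℚ] Ω) (e : Ω) (P : Pt V Ω), σ (sC e P) = sC e P := by
    intro σ e P
    rcases sC_sq (a := e) P with h | h <;> rw [h] <;> simp
  set T : Ω → Ω := fun e => sC e (g (ρ e)) * ρ e t with hT
  have claim : ∀ (σ : Ω ≃ₐ[ℚ] Ω) (e : Ω), (e = a ∨ e = b ∨ e = c) →
      σ (T e) = sC (σ e) (g σ) * T (σ e) := by
    intro σ e he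
    have he' := root σ he
    set τ : Ω ≃ₐ[ℚ] Ω := (ρ (σ e))⁻¹ * (σ * ρ e) with hτ
    have h1 : σ * ρ e = ρ (σ e) * τ := by rw [hτ]; group
    have h3 : τ a = a := by
      rw [hτ, AlgEquiv.mul_apply, AlgEquiv.mul_apply, hρ e he]
      apply (ρ (σ e)).injective
      rw [← AlgEquiv.mul_apply, mul_inv_cancel, AlgEquiv.one_apply, hρ _ he']
    have h4 : σ (ρ e t) = sC a (g τ) * ρ (σ e) t := by
      rw [← AlgEquiv.mul_apply, h1, AlgEquiv.mul_apply, hk τ h3, map_mul, sgn]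
    have h5 : sC (σ e) (g σ) * sC e (g (ρ e)) = sC (σ e) (g (ρ (σ e))) * sC a (g τ) := by
      have e1 : sC (σ e) (g (σ * ρ e)) = sC (σ e) (g σ) * sC e (g (ρ e)) := by
        rw [hmul, add he' (hg2 _) (tw2 _ (hg2 _)), sga]
      have e2 : sC (σ e) (g (ρ (σ e) * τ)) = sC (σ e) (g (ρ (σ e))) * sC a (g τ) := by
        rw [hmul, add he' (hg2 _) (tw2 _ (hg2 _))]
        congr 1
        have := sga (ρ (σ e)) a (g τ)
        rw [hρ _ he'] at this
        exact this
      rw [← e1, ← e2, h1]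
    have m1 := sC_mul_self (a := σ e) (g σ)
    have m2 := sC_mul_self (a := a) (g τ)
    show σ (sC e (g (ρ e)) * ρ e t) = sC (σ e) (g σ) * (sC (σ e) (g (ρ (σ e))) * ρ (σ e) t)
    rw [map_mul, sgn, h4]
    have h6 : sC e (g (ρ e)) * sC a (g τ) = sC (σ e) (g σ) * sC (σ e) (g (ρ (σ e))) := by
      linear_combination (sC (σ e) (g σ) * sC a (g τ)) * h5 -
        (sC e (g (ρ e)) * sC a (g τ)) * m1 + (sC (σ e) (g σ) * sC (σ e) (g (ρ (σ e)))) * m2
    linear_combination (ρ (σ e) t) * h6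
  -- the product is fixed
  set S : Finset Ω := {a, b, c} with hS
  have memS : ∀ e, e ∈ S ↔ (e = a ∨ e = b ∨ e = c) := by
    intro e
    rw [hS]
    simp
  have prodS : ∀ F : Ω → Ω, ∏ e ∈ S, F e = F a * F b * F c := by
    intro F
    rw [hS, Finset.prod_insert, Finset.prod_insert, Finset.prod_singleton, mul_assoc]
    · simpa using hC.bc
    · simp only [Finset.mem_insert, Finset.mem_singleton, not_or]
      exact ⟨hC.ab, hC.ac⟩
  have perm : ∀ (σ : Ω ≃ₐ[ℚ] Ω) (F : Ω → Ω), ∏ e ∈ S, F (σ e) = ∏ e ∈ S, F e := by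
    intro σ F
    refine Finset.prod_bij (fun e _ => σ e) ?_ ?_ ?_ ?_
    · intro e he
      exact (memS _).2 (root σ ((memS e).1 he))
    · intro e _ e' _ h
      exact σ.injective h
    · intro e he
      refine ⟨σ⁻¹ e, (memS _).2 (root σ⁻¹ ((memS e).1 he)), ?_⟩
      rw [← AlgEquiv.mul_apply, mul_inv_cancel]
      rfl
    · intro e _
      rfl
  have hfix : ∀ σ : Ω ≃ₐ[ℚ] Ω, σ (∏ e ∈ S, T e) = ∏ e ∈ S, T e := by
    intro σ
    rw [map_prod]
    have h1 : ∏ e ∈ S, σ (T e) = ∏ e ∈ S, sC (σ e) (g σ) * T (σ e) :=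
      Finset.prod_congr rfl fun e he => claim σ e ((memS e).1 he)
    rw [h1, perm σ (fun e => sC e (g σ) * T e), Finset.prod_mul_distrib,
      prodS (fun e => sC e (g σ)), sC_prod hC (hg2 σ), one_mul]
  obtain ⟨r, hr⟩ : (∏ e ∈ S, T e) ∈ Set.range (algebraMap ℚ Ω) := by
    rw [InfiniteGalois.mem_range_algebraMap_iff_fixed]
    exact hfix
  refine ⟨r, (algebraMap ℚ Ω).injective ?_⟩
  rw [map_pow, hr, Algebra.norm_eq_prod_embeddings ℚ Ω z, ← Finset.prod_pow]
  let i0 : A →ₐ[ℚ] Ω := IsScalarTower.toAlgHom ℚ A Ω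
  refine Finset.prod_bij (fun φ _ => φ θ) ?_ ?_ ?_ ?_
  · intro φ _
    rw [memS]
    apply hC.root
    have h1 : cub V θ = 0 := by
      apply (algebraMap A Ω).injective
      rw [map_zero]
      have h3 := cub_map V i0 θ
      have h4 : i0 θ = a := hθ
      rw [h4, hC.root_a] at h3
      exact h3.symm
    rw [cub_map V φ θ, h1, map_zero]
  · intro φ _ ψ _ h
    exact hom_eq htop h
  · intro e he
    refine ⟨((ρ e : Ω ≃ₐ[ℚ] Ω) : Ω →ₐ[ℚ] Ω).comp i0, Finset.mem_univ _, ?_⟩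
    show ρ e (algebraMap A Ω θ) = e
    rw [hθ, hρ e ((memS e).1 he)]
  · intro φ _
    have hroot : φ θ = a ∨ φ θ = b ∨ φ θ = c := by
      apply hC.root
      have h1 : cub V θ = 0 := by
        apply (algebraMap A Ω).injective
        rw [map_zero]
        have h3 := cub_map V i0 θ
        have h4 : i0 θ = a := hθ
        rw [h4, hC.root_a] at h3
        exact h3.symm
      rw [cub_map V φ θ, h1, map_zero]
    have h1 : φ = ((ρ (φ θ) : Ω ≃ₐ[ℚ] Ω) : Ω →ₐ[ℚ] Ω).comp i0 := by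
      apply hom_eq htop
      show φ θ = ρ (φ θ) (algebraMap A Ω θ)
      rw [hθ, hρ _ hroot]
    have h3 : φ z = ρ (φ θ) (algebraMap A Ω z) := DFunLike.congr_fun h1 z
    rw [h3, ← hz, map_pow]
    show _ = (sC (φ θ) (g (ρ (φ θ))) * ρ (φ θ) t) ^ 2
    have m1 := sC_mul_self (a := φ θ) (g (ρ (φ θ)))
    linear_combination (-(ρ (φ θ) t) ^ 2) * m1

end norm

section core

variable {V : WeierstrassCurve ℚ} {K A M : Type} [Field K] [NumberField K] [IsGalois ℚ K] [Field A] [NumberField A]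
  [Field M] [NumberField M] [Algebra A M] [Algebra K M]
  [Algebra A (AlgebraicClosure K)] [Algebra M (AlgebraicClosure K)]
  [IsScalarTower A M (AlgebraicClosure K)] [IsScalarTower K M (AlgebraicClosure K)]

theorem kum_core (h1 : V.a₁ = 0) (h3 : V.a₃ = 0) (hΔ : V.Δ ≠ 0) {θ : A} (hθ : cub V θ = 0)
    (htop : IntermediateField.adjoin ℚ {θ} = ⊤) (hnr : ∀ x : K, cub V x ≠ 0)
    (g : (AlgebraicClosure K ≃ₐ[ℚ] AlgebraicClosure K) → Pt V (AlgebraicClosure K))
    (hg : IsLocallyConstant g) (hmul : ∀ σ τ, g (σ * τ) = g σ + act V (ak σ) (g τ))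
    (hg2 : ∀ σ, g σ + g σ = 0)
    (hloc : ∀ v : HeightOneSpectrum (𝓞 K),
      LocTriv V (v.adicCompletion K) (AlgebraicClosure (v.adicCompletion K))
        (fun σ : AlgebraicClosure K ≃ₐ[K] AlgebraicClosure K => g (σ.restrictScalars ℚ)))
    (hnc : ¬ ∃ T : Pt V (AlgebraicClosure K), T + T = 0 ∧
      ∀ σ : AlgebraicClosure K ≃ₐ[ℚ] AlgebraicClosure K, g σ = act V (ak σ) T - T) :
    ∃ z : A, z ≠ 0 ∧ (∃ r : ℚ, Algebra.norm ℚ z = r ^ 2) ∧ (¬ ∃ s : A, z = s ^ 2) ∧
      (∀ (v : HeightOneSpectrum (𝓞 K)) (w : HeightOneSpectrum (𝓞 M))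
        (j : v.adicCompletion K →+* w.adicCompletion M),
        (∀ x : K, j (algebraMap K (v.adicCompletion K) x) =
          algebraMap M (w.adicCompletion M) (algebraMap K M x)) →
        LocC V j (algebraMap A M θ) (algebraMap A M z)) ∧
      ∀ p : HeightOneSpectrum (𝓞 ℚ),
        LocTriv (F := ℚ) (Ω := AlgebraicClosure K) V (p.adicCompletion ℚ)
          (AlgebraicClosure (p.adicCompletion ℚ)) g → LocU V θ z p := by
  haveI : IsScalarTower ℚ A (AlgebraicClosure K) := IsScalarTower.of_algebraMap_eq fun x => by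
    rw [eq_ratCast, eq_ratCast, map_ratCast]
  set i0 : A →ₐ[ℚ] AlgebraicClosure K := IsScalarTower.toAlgHom ℚ A _ with hi0
  have ha : cub V (algebraMap A (AlgebraicClosure K) θ) = 0 := by
    have := cub_map V i0 θ
    rw [hθ, map_zero] at this
    exact this
  obtain ⟨b, c, hC⟩ := exists_isC (K := ℚ) (Ω := AlgebraicClosure K) (W := V) h1 h3 hΔ
    two_ne_zero ha
  have hnrQ : ∀ x : ℚ, cub V x ≠ 0 := by
    intro x hx
    apply hnr (algebraMap ℚ K x)
    have := cub_map V (Algebra.ofId ℚ K) x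
    rw [hx, map_zero] at this
    exact this
  obtain ⟨t, z, ht, hz, hk⟩ := kummerN hC rfl htop hg hmul hg2
  have hz0 : z ≠ 0 := by
    rintro rfl
    rw [map_zero] at hz
    exact pow_ne_zero 2 ht hz
  refine ⟨z, hz0, norm_sq hC hnrQ rfl htop hmul hg2 hz hk, ?_, ?_, ?_⟩
  · rintro ⟨s, hs⟩
    apply hnc
    have h1 : t = algebraMap A _ s ∨ t = -algebraMap A _ s := by
      rw [← sq_eq_sq_iff_eq_or_eq_neg, hz, hs, map_pow]
    have hfixA : ∀ τ : AlgebraicClosure K ≃ₐ[ℚ] AlgebraicClosure K,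
        τ (algebraMap A _ θ) = algebraMap A _ θ →
        ∀ x : A, τ (algebraMap A _ x) = algebraMap A _ x := by
      intro τ hτ x
      obtain ⟨τ', hτ'⟩ := lift_fix htop τ hτ
      rw [← hτ', τ'.commutes]
    have hs1 : ∀ τ : AlgebraicClosure K ≃ₐ[ℚ] AlgebraicClosure K,
        τ (algebraMap A _ θ) = algebraMap A _ θ →
        sC (algebraMap A _ θ) (g τ) = 1 := by
      intro τ hτ
      have h3 := hk τ hτ
      have h4 : τ t = t := by
        rcases h1 with h1 | h1
        · rw [h1, hfixA τ hτ]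
        · rw [h1, map_neg, hfixA τ hτ]
      rw [h4] at h3
      have h5 : (sC (algebraMap A _ θ) (g τ) - 1) * t = 0 := by
        linear_combination -h3
      rcases mul_eq_zero.1 h5 with h | h
      · linear_combination h
      · exact absurd h ht
    obtain ⟨R, hR, h6⟩ := cob1 (K := ℚ) (F := ℚ) hC
      (fun e he => trans_roots (K := ℚ) (F := ℚ) hC hnrQ e he) hmul hg2 hs1
    exact ⟨R, hR, h6⟩
  · intro v w j hj
    haveI : IsGalois (v.adicCompletion K) (AlgebraicClosure (v.adicCompletion K)) := galL K v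
    haveI : IsGalois (w.adicCompletion M) (AlgebraicClosure (w.adicCompletion M)) := galL M w
    have hrs : ∀ σ : AlgebraicClosure K ≃ₐ[K] AlgebraicClosure K,
        (σ.restrictScalars ℚ) (algebraMap A _ θ) = algebraMap A _ θ →
        σ t = sC (algebraMap A _ θ) (g (σ.restrictScalars ℚ)) * t :=
      fun σ h => hk (σ.restrictScalars ℚ) h
    have hcoc : IsCoc V (fun σ : AlgebraicClosure K ≃ₐ[K] AlgebraicClosure K =>
        g (σ.restrictScalars ℚ)) := by
      refine ⟨?_, fun σ τ => ?_⟩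
      · have h1 : IsLocallyConstant (g ∘ (AlgEquiv.restrictScalarsHom ℚ :
            (AlgebraicClosure K ≃ₐ[K] AlgebraicClosure K) →* _)) :=
          hg.comp_continuous (cont_rs (F := ℚ) (M := K) (Ω := AlgebraicClosure K))
        exact h1
      · exact hmul (σ.restrictScalars ℚ) (τ.restrictScalars ℚ)
    refine locC (K := ℚ) (F := K) (Ω := AlgebraicClosure K) (L := v.adicCompletion K)
      (Ω' := AlgebraicClosure (v.adicCompletion K)) (E := w.adicCompletion M) (M := M) V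
      (AlgebraicClosure (w.adicCompletion M)) hC (θ := algebraMap A M θ)
      ?_ j ?_ hcoc (fun σ => hg2 _) (hloc v) (t := t) (z := algebraMap A M z) ht ?_ hrs
    · rw [← IsScalarTower.algebraMap_apply A M]
    · intro x
      rw [hj x]
      rfl
    · rw [hz, ← IsScalarTower.algebraMap_apply A M]

  · intro p hp
    haveI : IsGalois (p.adicCompletion ℚ) (AlgebraicClosure (p.adicCompletion ℚ)) := galL ℚ p
    have hcoc : IsCoc (F := ℚ) V g := ⟨hg, hmul⟩
    obtain ⟨Q, hQ⟩ := exists_isQ V hg2 hp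
    have key : ∀ (u : HeightOneSpectrum (𝓞 A)) (j : p.adicCompletion ℚ →+* u.adicCompletion A),
        (∀ x : ℚ, j (algebraMap ℚ (p.adicCompletion ℚ) x) =
          algebraMap A (u.adicCompletion A) (algebraMap ℚ A x)) →
        (Q = 0 → ∃ s : u.adicCompletion A, algebraMap A (u.adicCompletion A) z = s ^ 2) ∧
        ∀ x y h, Q = .some x y h → ∃ s D : u.adicCompletion A,
          algebraMap A (u.adicCompletion A) z = s ^ 2 * D ∧
          ((j x = algebraMap A (u.adicCompletion A) θ ∧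
            D = cub' V (algebraMap A (u.adicCompletion A) θ)) ∨
          (j x ≠ algebraMap A (u.adicCompletion A) θ ∧
            D = j x - algebraMap A (u.adicCompletion A) θ)) := by
      intro u j hj
      haveI : IsGalois (u.adicCompletion A) (AlgebraicClosure (u.adicCompletion A)) := galL A u
      refine locCQ (K := ℚ) (F := ℚ) (Ω := AlgebraicClosure K) (L := p.adicCompletion ℚ)
        (Ω' := AlgebraicClosure (p.adicCompletion ℚ)) (E := u.adicCompletion A) (M := A) V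
        (AlgebraicClosure (u.adicCompletion A)) hC (θ := θ) rfl j ?_ hcoc hg2 hQ (t := t) (z := z)
        ht hz hk
      intro x
      rw [hj x]
      rfl
    rcases hQ0 : Q with _ | ⟨x, y, hxy⟩
    · left
      intro u j hj
      exact (key u j hj).1 hQ0
    · right
      exact ⟨x, y, hC.eqnL hxy, fun u j hj => (key u j hj).2 x y hxy hQ0⟩

end core

open Pool.Agent.Y809.BS (AA MM AA_nf MM_nf AAtoMM AA_fin MM_fin pp adj_pp)

theorem s_kum : Pool.Agent.Y702.G.S_KUM := by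
  intro V h1 h3 hΔ K _ _ _ n hn hnr g hg hmul hg2 hloc hnc
  obtain ⟨p, hp⟩ : ∃ p : AlgebraicClosure K, cub V p = 0 := by
    obtain ⟨hd, hm⟩ := cubP_deg (W := V) (F := AlgebraicClosure K)
    obtain ⟨a, ha⟩ := IsAlgClosed.exists_root (cubP V (AlgebraicClosure K)) (by
      rw [Polynomial.degree_eq_natDegree hm.ne_zero, hd]
      norm_num)
    refine ⟨a, ?_⟩
    have h4 := cubP_aeval (W := V) (F := AlgebraicClosure K) a
    rw [← h4]
    rw [Polynomial.aeval_def, ← Polynomial.eval_map]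
    simpa using ha
  letI i1 : NumberField (AA K p) := AA_nf K p
  letI i2 : NumberField (MM K p) := MM_nf K p
  letI i3 : Algebra (AA K p) (MM K p) := (AAtoMM K p).toAlgebra
  haveI i4 : IsScalarTower (AA K p) (MM K p) (AlgebraicClosure K) :=
    IsScalarTower.of_algebraMap_eq fun x => rfl
  have hpp : cub V (pp K p) = 0 := by
    apply Subtype.ext
    unfold cub at hp ⊢
    rw [eq_ratCast, eq_ratCast, eq_ratCast] at hp ⊢
    push_cast
    exact hp
  have hadj : IntermediateField.adjoin ℚ {pp K p} = ⊤ := adj_pp K p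
  obtain ⟨z, hz0, hz1, hz2, hz3, hz4⟩ := kum_core (K := K) (A := AA K p) (M := MM K p)
    h1 h3 hΔ (θ := pp K p) hpp hadj hnr g hg hmul hg2 hloc hnc
  refine ⟨AA K p, MM K p, inferInstance, i1, inferInstance, i2, i3, inferInstance, pp K p, z,
    hpp, hadj, ?_, hz0, hz1, hz2, hz3, hz4⟩
  rw [eq_top_iff]
  rintro ⟨x, hx⟩ -
  induction hx using IntermediateField.adjoin_induction with
  | mem x hx =>
    rw [Set.mem_singleton_iff] at hx
    subst hx
    exact IntermediateField.algebraMap_mem _ (pp K x)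
  | algebraMap x => exact IntermediateField.subset_adjoin _ _ ⟨x, rfl⟩
  | add x y hx hy h1 h3 => exact add_mem h1 h3
  | inv x hx h1 => exact inv_mem h1
  | mul x y hx hy h1 h3 => exact mul_mem h1 h3

end Pool.Agent.Y275.G
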